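import Pool.Agent.Hhelper10.Schub.Final6

/-!
# The set of permutations with a point of multiplicity at least 3 is not closed upward

`354612` lies in `𝓜₃` (the multiplicity of `X_{354612}` at `e_id` is `3`), and `4657312` contains
`354612` (delete the value `3`), but all multiplicities of `X_{4657312}` at the points `e_u` are
at most `2`.
-/

namespace Pool.Agent.Results.MP_5035a9_ag.NotClosed

open Pool.Agent.Hhelper10.Schub

/-- **Negative answer.** The permutation `354612` is in `𝓜₃` and is a pattern of `4657312`, but
`4657312` is not in `𝓜₃`: at every point `e_u` of `X_{4657312}` the multiplicity is at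
most `2`. -/
theorem result :
    InM3 perm354612 ∧ ContainsPattern perm4657312 perm354612 ∧ ¬ InM3 perm4657312 ∧
      ∀ (u : Equiv.Perm (Fin 7)) (hu : flagPt u ∈ schubert perm4657312),
        ∃ m : ℚ, SchubertMult perm4657312 u hu m ∧ m ≤ 2 := by
  refine ⟨⟨1, one_mem_schubert_p6, 3, mult_p6, le_rfl⟩, contains_w7_p6, ?_, mult_w7_le⟩
  rintro ⟨u, hu, m, hm, hm3⟩
  obtain ⟨m', hm', hm2⟩ := mult_w7_le u hu
  have := hm.unique hm'
  subst this
  linarith

end Pool.Agent.Results.MP_5035a9_ag.NotClosed
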